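import Pool.Agent.Run7.h684.SO.Def

/-! helper569: piece ABL of project SO (helper684). -/

set_option autoImplicit false

open Filter Topology

namespace Run7.h569.SO

open Run7.h684.SO

theorem parts (g h : ℕ → ℝ) (N : ℕ) : ∑ n ∈ Finset.range N, g n * h n =
    (∑ n ∈ Finset.range N, g n) * h N +
      ∑ n ∈ Finset.range N, (∑ m ∈ Finset.range (n + 1), g m) * (h n - h (n + 1)) := by
  induction N with
  | zero => simp
  | succ N ih =>
    rw [Finset.sum_range_succ, ih, Finset.sum_range_succ (fun n => (∑ m ∈ Finset.range (n + 1), g m) *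
      (h n - h (n + 1))), Finset.sum_range_succ g]
    ring

theorem abel_le (g h : ℕ → ℝ) (C : ℝ) (hC : ∀ N, ∑ n ∈ Finset.range N, g n ≤ C)
    (hanti : ∀ n, h (n + 1) ≤ h n) (h0 : ∀ n, 0 ≤ h n) (N : ℕ) :
    ∑ n ∈ Finset.range N, g n * h n ≤ C * h 0 := by
  rw [parts]
  have h1 : (∑ n ∈ Finset.range N, g n) * h N ≤ C * h N :=
    mul_le_mul_of_nonneg_right (hC N) (h0 N)
  have h2 : ∑ n ∈ Finset.range N, (∑ m ∈ Finset.range (n + 1), g m) * (h n - h (n + 1)) ≤
      ∑ n ∈ Finset.range N, C * (h n - h (n + 1)) :=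
    Finset.sum_le_sum fun n _ =>
      mul_le_mul_of_nonneg_right (hC (n + 1)) (by linarith [hanti n])
  rw [← Finset.mul_sum, Finset.sum_range_sub'] at h2
  linarith

theorem Sw_nat (w : ℕ → ℝ) (M : ℕ) :
    Sw w (M : ℝ) = ∑ n ∈ Finset.range (M + 1), if n.Prime then w n / n else 0 := by
  unfold Sw
  rw [Nat.floor_natCast, ← Finset.sum_filter]
  refine Finset.sum_congr ?_ fun _ _ => rfl
  ext n
  simp only [Finset.mem_filter, Finset.mem_Icc, Finset.mem_range]
  constructor
  · rintro ⟨⟨-, h2⟩, h3⟩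
    exact ⟨by omega, h3⟩
  · rintro ⟨h1, h2⟩
    exact ⟨⟨h2.one_lt.le, by omega⟩, h2⟩

theorem t_ABL : S_ABL := by
  rintro w1 w2 hw1 hw2 ⟨C, hC⟩
  refine ⟨max C 0, fun δ hδ => ?_⟩
  set g : ℕ → ℝ := fun n => if n.Prime then (w1 n - w2 n) / n else 0 with hg
  set h : ℕ → ℝ := fun n => ((max n 1 : ℕ) : ℝ) ^ (-δ) with hh
  have hA : ∀ N, ∑ n ∈ Finset.range N, g n ≤ max C 0 := by
    intro N
    rcases N with _ | M
    · simp
    · have e : ∑ n ∈ Finset.range (M + 1), g n = Sw w1 (M : ℝ) - Sw w2 (M : ℝ) := by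
        rw [Sw_nat, Sw_nat, ← Finset.sum_sub_distrib]
        refine Finset.sum_congr rfl fun n _ => ?_
        simp only [hg]
        split_ifs
        · ring
        · ring
      by_cases hM : 2 ≤ M
      · rw [e]
        exact (hC M (by exact_mod_cast hM)).trans (le_max_left _ _)
      · have : ∑ n ∈ Finset.range (M + 1), g n = 0 := by
          refine Finset.sum_eq_zero fun n hn => ?_
          rw [Finset.mem_range] at hn
          simp only [hg]
          rw [if_neg]
          intro hp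
          have := hp.two_le
          omega
        rw [this]
        exact le_max_right _ _
  have hanti : ∀ n, h (n + 1) ≤ h n := by
    intro n
    simp only [hh]
    refine Real.rpow_le_rpow_of_nonpos ?_ ?_ (by linarith)
    · have : 1 ≤ max n 1 := le_max_right _ _
      exact_mod_cast this
    · have : max n 1 ≤ max (n + 1) 1 := max_le_max (Nat.le_succ n) le_rfl
      exact_mod_cast this
  have hnn : ∀ n, 0 ≤ h n := fun n => Real.rpow_nonneg (Nat.cast_nonneg _) _
  have hh0 : h 0 = 1 := by simp [hh]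
  have hbd := abel_le g h (max C 0) hA hanti hnn
  rw [hh0, mul_one] at hbd
  -- the tsum
  have hs1 := hw1 δ hδ
  have hs2 := hw2 δ hδ
  unfold Lw
  rw [← hs1.tsum_sub hs2]
  have hs : HasSum (fun p : Nat.Primes => w1 p * ((p : ℕ) : ℝ) ^ (-(1 + δ)) -
      w2 p * ((p : ℕ) : ℝ) ^ (-(1 + δ))) _ := (hs1.sub hs2).hasSum
  set S : ℝ := ∑' p : Nat.Primes, (w1 p * ((p : ℕ) : ℝ) ^ (-(1 + δ)) -
      w2 p * ((p : ℕ) : ℝ) ^ (-(1 + δ))) with hS
  have hfun : (fun p : Nat.Primes => w1 p * ((p : ℕ) : ℝ) ^ (-(1 + δ)) -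
      w2 p * ((p : ℕ) : ℝ) ^ (-(1 + δ))) = (fun n : ℕ => g n * h n) ∘ (Subtype.val : Nat.Primes → ℕ) := by
    funext p
    have hp : (p : ℕ).Prime := p.2
    have hp0 : (0 : ℝ) < (p : ℕ) := by exact_mod_cast hp.pos
    have hm : max (p : ℕ) 1 = (p : ℕ) := max_eq_left hp.one_lt.le
    simp only [hg, hh, Function.comp]
    rw [if_pos hp, hm, neg_add, Real.rpow_add hp0, Real.rpow_neg_one]
    ring
  rw [hfun] at hs
  have hs' : HasSum (Set.indicator {p : ℕ | p.Prime} (fun n : ℕ => g n * h n)) S :=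
    (hasSum_subtype_iff_indicator (s := {p : ℕ | p.Prime})).1 hs
  have hind : Set.indicator {p : ℕ | p.Prime} (fun n : ℕ => g n * h n) = fun n : ℕ => g n * h n := by
    funext n
    by_cases hn : n.Prime
    · rw [Set.indicator_of_mem (by exact hn)]
    · rw [Set.indicator_of_notMem (by exact hn)]
      simp only [hg]
      rw [if_neg hn, zero_mul]
  rw [hind] at hs'
  exact le_of_tendsto' hs'.tendsto_sum_nat hbd

end Run7.h569.SO
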